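import Pool.Agent.Helper92.GG.Stmts
import Pool.Agent.Helper92.GG.RK
import Pool.Agent.Helper49.Girth.Transfer2

/-! # From algebraically closed fields to finite fields -/

set_option autoImplicit false

namespace Pool.Agent.Helper92.GG

open MvPolynomial SimpleGraph Filter
open Pool.Agent.Helper49.Girth (uI mk_eq_zero_iff ultraMap prodMap ultraMap_comp ultra_root
  exists_lift_poly egirth_le_iff uI_max)

universe u

/-- a finite subgraph of an ultraproduct-like graph comes from the factors -/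
theorem FINITE_los_graph {V : Type*} {W : ℕ → Type*} (G : SimpleGraph V)
    (H : ∀ k, SimpleGraph (W k)) (U : Ultrafilter ℕ) (lift : V → ∀ k, W k)
    (hadj : ∀ x y, G.Adj x y → ∀ᶠ k in (U : Filter ℕ), (H k).Adj (lift x k) (lift y k))
    (hne : ∀ x y, x ≠ y → ∀ᶠ k in (U : Filter ℕ), lift x k ≠ lift y k)
    {n : ℕ} (h : cycleGraph n ⊑ G) : ∀ᶠ k in (U : Filter ℕ), cycleGraph n ⊑ H k := by
  obtain ⟨c⟩ := h
  have h1 : ∀ a b : Fin n, ∀ᶠ k in (U : Filter ℕ), (cycleGraph n).Adj a b →
      (H k).Adj (lift (c a) k) (lift (c b) k) := by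
    intro a b
    by_cases hab : (cycleGraph n).Adj a b
    · exact (hadj _ _ (c.toHom.map_adj hab)).mono fun k hk _ => hk
    · exact Eventually.of_forall fun k h => absurd h hab
  have h2 : ∀ a b : Fin n, ∀ᶠ k in (U : Filter ℕ), lift (c a) k = lift (c b) k → a = b := by
    intro a b
    by_cases hab : a = b
    · exact Eventually.of_forall fun _ _ => hab
    · exact (hne _ _ (fun h => hab (c.injective h))).mono fun k hk h => absurd h hk
  filter_upwards [eventually_all.2 fun a => eventually_all.2 (h1 a),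
    eventually_all.2 fun a => eventually_all.2 (h2 a)] with k hk1 hk2
  exact ⟨⟨⟨fun a => lift (c a) k, fun {a b} hab => hk1 a b hab⟩, fun a b hab => hk2 a b hab⟩⟩

section los

variable (F E : ℕ → Type u) [∀ k, Field (F k)] [∀ k, Field (E k)] [∀ k, Algebra (F k) (E k)]
  (U : Ultrafilter ℕ) {K : Type u} [Field K] [Algebra K (((k : ℕ) → E k) ⧸ uI E U)]
  (φ : ((k : ℕ) → F k) →+* K)

/-- Łoś for polynomial equations -/
theorem FINITE_los (hφ : (algebraMap K (((k : ℕ) → E k) ⧸ uI E U)).comp φ =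
      (Ideal.Quotient.mk (uI E U)).comp (prodMap F E)) {σ : Type}
    (f : MvPolynomial σ ((k : ℕ) → F k)) (x : σ → (k : ℕ) → E k) :
    aeval (fun s => Ideal.Quotient.mk (uI E U) (x s)) (MvPolynomial.map φ f) = 0 ↔
      ∀ᶠ k in (U : Filter ℕ), aeval (fun s => x s k)
        (MvPolynomial.map (Pi.evalRingHom (fun k => F k) k) f) = 0 := by
  have h1 : aeval (fun s => Ideal.Quotient.mk (uI E U) (x s)) (MvPolynomial.map φ f) =
      Ideal.Quotient.mk (uI E U) (eval₂ (prodMap F E) x f) := by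
    rw [aeval_def, eval₂_map, hφ]
    exact (eval₂_comp_left (Ideal.Quotient.mk (uI E U)) (prodMap F E) x f).symm
  have h2 : ∀ k, (eval₂ (prodMap F E) x f) k = aeval (fun s => x s k)
        (MvPolynomial.map (Pi.evalRingHom (fun k => F k) k) f) := by
    intro k
    have h3 := eval₂_comp_left (Pi.evalRingHom (fun k => E k) k) (prodMap F E) x f
    rw [aeval_def, eval₂_map]
    exact h3
  rw [h1, mk_eq_zero_iff]
  simp only [h2]

variable {N D : ℕ} (S : ∀ k, Fin D → Set (MvPolynomial (Fin N ⊕ Fin N) (F k)))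
  (g : ∀ k, Fin D → MvPolynomial (Fin N ⊕ Fin N) (F k))
  (G : Fin D → MvPolynomial (Fin N ⊕ Fin N) ((k : ℕ) → F k))

/-- the internal set of equations -/
def FINITE_SK (i : Fin D) : Set (MvPolynomial (Fin N ⊕ Fin N) K) :=
  {f | ∃ f' : MvPolynomial (Fin N ⊕ Fin N) ((k : ℕ) → F k), MvPolynomial.map φ f' = f ∧
    ∀ᶠ k in (U : Filter ℕ), MvPolynomial.map (Pi.evalRingHom (fun k => F k) k) f' ∈ S k i}

theorem FINITE_los_prel (hφ : (algebraMap K (((k : ℕ) → E k) ⧸ uI E U)).comp φ =
      (Ideal.Quotient.mk (uI E U)).comp (prodMap F E))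
    (hS : ∀ k i, ∀ f ∈ S k i, f.totalDegree ≤ D)
    (hG : ∀ i k, MvPolynomial.map (Pi.evalRingHom (fun k => F k) k) (G i) = g k i)
    (p l : Fin N → (k : ℕ) → E k) :
    PRel (FINITE_SK F U φ S) (fun i => MvPolynomial.map φ (G i)) (((k : ℕ) → E k) ⧸ uI E U)
      (fun i => Ideal.Quotient.mk (uI E U) (p i)) (fun i => Ideal.Quotient.mk (uI E U) (l i)) ↔
    ∀ᶠ k in (U : Filter ℕ), PRel (S k) (g k) (E k) (fun i => p i k) (fun i => l i k) := by
  have hx : Sum.elim (fun i => Ideal.Quotient.mk (uI E U) (p i))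
      (fun i => Ideal.Quotient.mk (uI E U) (l i)) =
      fun s => Ideal.Quotient.mk (uI E U) (Sum.elim p l s) := by
    funext s
    rcases s with s | s <;> rfl
  have hxk : ∀ k, Sum.elim (fun i => p i k) (fun i => l i k) =
      fun s => (Sum.elim p l s) k := by
    intro k
    funext s
    rcases s with s | s <;> rfl
  unfold PRel
  simp only [hx, hxk]
  constructor
  · rintro ⟨i, h1, h2⟩
    have h3 : ∀ᶠ k in (U : Filter ℕ), ¬ aeval (fun s => (Sum.elim p l s) k) (g k i) = 0 := by
      rw [Ultrafilter.eventually_not]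
      intro h4
      apply h2
      rw [FINITE_los F E U φ hφ]
      simpa only [hG] using h4
    have h5 : ∀ᶠ k in (U : Filter ℕ), ∀ f ∈ S k i,
        aeval (fun s => (Sum.elim p l s) k) f = 0 := by
      by_contra h6
      rw [← Ultrafilter.eventually_not] at h6
      push Not at h6
      have h7 : ∀ k, ∃ f : MvPolynomial (Fin N ⊕ Fin N) (F k), f.totalDegree ≤ D ∧
          ((∃ f ∈ S k i, aeval (fun s => (Sum.elim p l s) k) f ≠ 0) →
            f ∈ S k i ∧ aeval (fun s => (Sum.elim p l s) k) f ≠ 0) := by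
        intro k
        by_cases h8 : ∃ f ∈ S k i, aeval (fun s => (Sum.elim p l s) k) f ≠ 0
        · obtain ⟨f, hf1, hf2⟩ := h8
          exact ⟨f, hS k i f hf1, fun _ => ⟨hf1, hf2⟩⟩
        · exact ⟨0, by simp, fun h => absurd h h8⟩
      choose f hf1 hf2 using h7
      obtain ⟨f', hf'⟩ := exists_lift_poly F f D hf1
      have h9 := h1 (MvPolynomial.map φ f') ⟨f', rfl, by
        filter_upwards [h6] with k hk
        rw [hf']
        exact (hf2 k hk).1⟩
      rw [FINITE_los F E U φ hφ] at h9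
      obtain ⟨k, hk1, hk2⟩ := (h6.and h9).exists
      rw [hf'] at hk2
      exact (hf2 k hk1).2 hk2
    filter_upwards [h3, h5] with k hk1 hk2
    exact ⟨i, hk2, hk1⟩
  · intro h
    by_contra hcon
    push Not at hcon
    have h1 : ∀ i, ∀ᶠ k in (U : Filter ℕ), ¬ ((∀ f ∈ S k i,
        aeval (fun s => (Sum.elim p l s) k) f = 0) ∧
        aeval (fun s => (Sum.elim p l s) k) (g k i) ≠ 0) := by
      intro i
      rw [Ultrafilter.eventually_not]
      intro h2
      have h3 := hcon i (by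
        rintro _ ⟨f', rfl, hf'⟩
        rw [FINITE_los F E U φ hφ]
        filter_upwards [h2, hf'] with k hk1 hk2
        exact hk1.1 _ hk2)
      rw [FINITE_los F E U φ hφ] at h3
      obtain ⟨k, hk1, hk2⟩ := (h2.and h3).exists
      rw [hG] at hk2
      exact hk1.2 hk2
    obtain ⟨k, hk1, ⟨i, hk2⟩⟩ := ((eventually_all.2 h1).and h).exists
    exact hk1 i hk2

end los

/-- `PRel` and field extensions -/
theorem FINITE_prel_map {K : Type u} [Field K] {N D : ℕ}
    (S : Fin D → Set (MvPolynomial (Fin N ⊕ Fin N) K))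
    (g : Fin D → MvPolynomial (Fin N ⊕ Fin N) K) (L : Type u) [Field L] [Algebra K L]
    (p l : Fin N → K) : PRel S g K p l ↔
      PRel S g L (fun i => algebraMap K L (p i)) (fun i => algebraMap K L (l i)) := by
  have hx : Sum.elim (fun i => algebraMap K L (p i)) (fun i => algebraMap K L (l i)) =
      fun s => algebraMap K L (Sum.elim p l s) := by
    funext s
    rcases s with s | s <;> rfl
  have h1 : ∀ f : MvPolynomial (Fin N ⊕ Fin N) K,
      aeval (fun s => algebraMap K L (Sum.elim p l s)) f = 0 ↔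
        aeval (Sum.elim p l) f = 0 := by
    intro f
    have : aeval (fun s => algebraMap K L (Sum.elim p l s)) f =
        algebraMap K L (aeval (Sum.elim p l) f) := by
      have := aeval_algebraMap_apply (A := K) (B := L) (Sum.elim p l) f
      exact this
    rw [this]
    exact map_eq_zero_iff _ (algebraMap K L).injective
  unfold PRel
  rw [hx]
  simp only [h1, ne_eq]

/-- a finite cover by proper projections -/
theorem FINITE_cover {K : Type u} [Field K] {N D : ℕ}
    (S : Fin D → Set (MvPolynomial (Fin N ⊕ Fin N) K))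
    (g : Fin D → MvPolynomial (Fin N ⊕ Fin N) K) (d : ℕ)
    (hr : ∀ (L : Type u) [Field L] [Algebra K L] (p l : Fin N → L), PRel S g L p l →
      rk K (Set.range p ∪ Set.range l) ≤ d) :
    ∃ (J : Finset (Ideal (MvPolynomial (Fin N ⊕ Fin N) K)))
      (f : Ideal (MvPolynomial (Fin N ⊕ Fin N) K) → Finset (Fin N ⊕ Fin N) →
        MvPolynomial (Fin N ⊕ Fin N) K),
      (∀ j T, f j T ≠ 0 ∧ (f j T).vars ⊆ T) ∧
      ∀ (L : Type u) [Field L] [Algebra K L] (p l : Fin N → L), PRel S g L p l →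
        ∃ j ∈ J, ∀ T : Finset (Fin N ⊕ Fin N), T.card = d + 1 →
          aeval (Sum.elim p l) (f j T) = 0 := by
  classical
  let J₀ : Set (Ideal (MvPolynomial (Fin N ⊕ Fin N) K)) :=
    {P | ∃ i, P ∈ (Ideal.span (S i)).minimalPrimes ∧ g i ∉ P}
  have hJ₀ : J₀.Finite := by
    have h1 : (⋃ i, (Ideal.span (S i)).minimalPrimes).Finite :=
      Set.finite_iUnion fun i => Ideal.finite_minimalPrimes_of_isNoetherianRing _ _
    refine h1.subset ?_
    rintro P ⟨i, hi, -⟩
    exact Set.mem_iUnion.2 ⟨i, hi⟩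
  have key : ∀ (P : Ideal (MvPolynomial (Fin N ⊕ Fin N) K)) (T : Finset (Fin N ⊕ Fin N)),
      ∃ f : MvPolynomial (Fin N ⊕ Fin N) K, (f ≠ 0 ∧ f.vars ⊆ T) ∧
        (P ∈ J₀ → T.card = d + 1 → f ∈ P) := by
    intro P T
    by_cases hPT : P ∈ J₀ ∧ T.card = d + 1
    swap
    · refine ⟨1, ⟨one_ne_zero, by rw [vars_one]; exact Finset.empty_subset _⟩, fun h1 h2 => ?_⟩
      exact absurd ⟨h1, h2⟩ hPT
    obtain ⟨⟨i, hi, hgi⟩, hT⟩ := hPT
    have hP : P.IsPrime := hi.1.1
    have hle : Ideal.span (S i) ≤ P := hi.1.2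
    let L := FractionRing (MvPolynomial (Fin N ⊕ Fin N) K ⧸ P)
    let x : Fin N ⊕ Fin N → L := fun s =>
      algebraMap (MvPolynomial (Fin N ⊕ Fin N) K ⧸ P) L (Ideal.Quotient.mk P (X s))
    have hx : ∀ f : MvPolynomial (Fin N ⊕ Fin N) K, aeval x f =
        algebraMap (MvPolynomial (Fin N ⊕ Fin N) K ⧸ P) L (Ideal.Quotient.mk P f) := by
      intro f
      let ψ : MvPolynomial (Fin N ⊕ Fin N) K →ₐ[K] L :=
        (IsScalarTower.toAlgHom K (MvPolynomial (Fin N ⊕ Fin N) K ⧸ P) L).comp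
          (Ideal.Quotient.mkₐ K P)
      have h1 : aeval x = ψ := by
        apply MvPolynomial.algHom_ext
        intro s
        rw [aeval_X]
        rfl
      rw [h1]
      rfl
    have hx0 : ∀ f : MvPolynomial (Fin N ⊕ Fin N) K, aeval x f = 0 ↔ f ∈ P := by
      intro f
      rw [hx, map_eq_zero_iff _ (IsFractionRing.injective
        (MvPolynomial (Fin N ⊕ Fin N) K ⧸ P) L), Ideal.Quotient.eq_zero_iff_mem]
    have helim : Sum.elim (x ∘ Sum.inl) (x ∘ Sum.inr) = x := by
      funext s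
      rcases s with s | s <;> rfl
    have hrel : PRel S g L (x ∘ Sum.inl) (x ∘ Sum.inr) := by
      refine ⟨i, fun f hf => ?_, ?_⟩
      · rw [helim, hx0]
        exact hle (Ideal.subset_span hf)
      · rw [helim, Ne, hx0]
        exact hgi
    have hrk := hr L _ _ hrel
    have hdep : ¬ AlgebraicIndependent K (fun t : T => x t) := by
      intro hind
      have h1 := rk_range_of_algebraicIndependent hind
      rw [Nat.card_eq_fintype_card, Fintype.card_coe, hT] at h1
      have h2 : Set.range (fun t : T => x t) ⊆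
          Set.range (x ∘ Sum.inl) ∪ Set.range (x ∘ Sum.inr) := by
        rintro _ ⟨⟨t, ht⟩, rfl⟩
        rcases t with t | t
        · exact Or.inl ⟨t, rfl⟩
        · exact Or.inr ⟨t, rfl⟩
      have h3 := rk_mono (K := K) ((Set.finite_range _).union (Set.finite_range _)) h2
      omega
    rw [algebraicIndependent_iff] at hdep
    push Not at hdep
    obtain ⟨q, hq1, hq2⟩ := hdep
    refine ⟨rename (Subtype.val : T → Fin N ⊕ Fin N) q, ⟨?_, ?_⟩, fun _ _ => ?_⟩
    · intro h1
      apply hq2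
      apply rename_injective _ Subtype.val_injective
      rw [h1, map_zero]
    · intro s hs
      have h1 := vars_rename (Subtype.val : T → Fin N ⊕ Fin N) q hs
      obtain ⟨t, -, rfl⟩ := Finset.mem_image.1 h1
      exact t.2
    · rw [← hx0, aeval_rename]
      exact hq1
  choose f hf1 hf2 using key
  refine ⟨hJ₀.toFinset, f, hf1, ?_⟩
  intro L _ _ p l hpl
  obtain ⟨i, h1, h2⟩ := hpl
  have hker : (RingHom.ker (aeval (R := K) (Sum.elim p l))).IsPrime := RingHom.ker_isPrime _
  obtain ⟨P, hP1, hP2⟩ := Ideal.exists_minimalPrimes_le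
    (I := Ideal.span (S i)) (J := RingHom.ker (aeval (R := K) (Sum.elim p l))) (by
      rw [Ideal.span_le]
      intro f hf
      exact h1 f hf)
  have hPJ : P ∈ J₀ := ⟨i, hP1, fun h => h2 (hP2 h)⟩
  exact ⟨P, hJ₀.mem_toFinset.2 hPJ, fun T hT => hP2 (hf2 P T hPJ hT)⟩

/-- edges and incident pairs -/
theorem FINITE_edges {F : Type u} [Field F] {N D : ℕ}
    (S : Fin D → Set (MvPolynomial (Fin N ⊕ Fin N) F))
    (g : Fin D → MvPolynomial (Fin N ⊕ Fin N) F) (E : Type u) [Field E] [Algebra F E]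
    [Finite E] :
    (polyGraph S g E).edgeSet.ncard ≤
      {x : Fin N ⊕ Fin N → E | PRel S g E (x ∘ Sum.inl) (x ∘ Sum.inr)}.ncard := by
  let h : (Fin N ⊕ Fin N → E) → Sym2 ((Fin N → E) ⊕ (Fin N → E)) :=
    fun x => s(Sum.inl (x ∘ Sum.inl), Sum.inr (x ∘ Sum.inr))
  have hsub : (polyGraph S g E).edgeSet ⊆
      h '' {x : Fin N ⊕ Fin N → E | PRel S g E (x ∘ Sum.inl) (x ∘ Sum.inr)} := by
    intro e he
    induction e with
    | _ a b =>
      rw [SimpleGraph.mem_edgeSet] at he
      rcases he with ⟨p, l, rfl, rfl, hpl⟩ | ⟨p, l, rfl, rfl, hpl⟩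
      · exact ⟨Sum.elim p l, hpl, rfl⟩
      · exact ⟨Sum.elim p l, hpl, Sym2.eq_swap⟩
  exact (Set.ncard_le_ncard hsub (Set.toFinite _)).trans (Set.ncard_image_le (Set.toFinite _))

section lift

variable (E : ℕ → Type u) [∀ k, Field (E k)] (U : Ultrafilter ℕ) {K : Type u} [Field K]
  [Algebra K (((k : ℕ) → E k) ⧸ uI E U)]

theorem FINITE_lift {σ : Type} (f : MvPolynomial σ K) :
    ∃ f' : MvPolynomial σ ((k : ℕ) → E k),
      MvPolynomial.map (Ideal.Quotient.mk (uI E U)) f' =
        MvPolynomial.map (algebraMap K (((k : ℕ) → E k) ⧸ uI E U)) f ∧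
      f'.support ⊆ f.support := by
  classical
  choose out hout using Ideal.Quotient.mk_surjective (I := uI E U)
  refine ⟨∑ e ∈ f.support, monomial e (out (algebraMap K _ (coeff e f))), ?_, ?_⟩
  · rw [map_sum]
    simp only [map_monomial, hout]
    conv_rhs => rw [f.as_sum, map_sum]
    simp only [map_monomial]
  · intro e he
    rw [mem_support_iff, coeff_sum] at he
    by_contra hne
    apply he
    apply Finset.sum_eq_zero
    intro e' he'
    rw [coeff_monomial, if_neg]
    rintro rfl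
    exact hne he'

/-- Łoś for a polynomial over the product ring -/
theorem FINITE_los' {σ : Type} (f : MvPolynomial σ ((k : ℕ) → E k)) (x : σ → (k : ℕ) → E k) :
    eval (fun s => Ideal.Quotient.mk (uI E U) (x s))
      (MvPolynomial.map (Ideal.Quotient.mk (uI E U)) f) = 0 ↔
      ∀ᶠ k in (U : Filter ℕ), eval (fun s => x s k)
        (MvPolynomial.map (Pi.evalRingHom (fun k => E k) k) f) = 0 := by
  have h1 : eval (fun s => Ideal.Quotient.mk (uI E U) (x s))
      (MvPolynomial.map (Ideal.Quotient.mk (uI E U)) f) =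
      Ideal.Quotient.mk (uI E U) (eval x f) := by
    rw [eval_map, ← eval₂_id, eval₂_comp_left, RingHom.comp_id]
    rfl
  have h2 : ∀ k, (eval x f) k = eval (fun s => x s k)
        (MvPolynomial.map (Pi.evalRingHom (fun k => E k) k) f) := by
    intro k
    rw [eval_map]
    have h3 := eval₂_comp_left (Pi.evalRingHom (fun k => E k) k) (RingHom.id _) x f
    rw [RingHom.comp_id] at h3
    rw [← eval₂_id]
    exact h3
  rw [h1, mk_eq_zero_iff]
  simp only [h2]

end lift

theorem FINITE_support_mono {R S σ : Type*} [CommSemiring R] [CommSemiring S]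
    {p : MvPolynomial σ R} {q : MvPolynomial σ S} (h : p.support ⊆ q.support) :
    p.totalDegree ≤ q.totalDegree ∧ p.vars ⊆ q.vars := by
  refine ⟨Finset.sup_mono h, fun i hi => ?_⟩
  rw [mem_vars_iff_mem_support] at hi ⊢
  obtain ⟨e, he, hi⟩ := hi
  exact ⟨e, h he, hi⟩

theorem st_FINITE (hT : ST_TALG.{u}) (hC : ST_COUNT.{u}) : ST_FINITE.{u} := by
  classical
  intro m hm N D
  rcases Nat.eq_zero_or_pos N with hN | hN
  · subst hN
    refine ⟨1, 1, one_pos, fun F _ _ S g _ _ E _ _ _ _ _ => ?_⟩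
    have h1 := FINITE_edges S g E
    have h2 : {x : Fin 0 ⊕ Fin 0 → E | PRel S g E (x ∘ Sum.inl) (x ∘ Sum.inr)}.ncard ≤ 1 :=
      Set.ncard_le_one_of_subsingleton _
    have h3 : (polyGraph S g E).edgeSet.ncard ≤ 1 := h1.trans h2
    calc (polyGraph S g E).edgeSet.ncard ^ m ≤ 1 ^ m := Nat.pow_le_pow_left h3 m
      _ ≤ 1 * Nat.card E ^ ((m + 1) * 0 - 1) := by simp
  by_contra hcon
  push Not at hcon
  choose F fF finF S g hS hg E fE aE finE hdvd hgirth hbad using
    fun k : ℕ => hcon k.factorial k (Nat.factorial_pos k)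
  let U : Ultrafilter ℕ := hyperfilter ℕ
  have hU : (U : Filter ℕ) ≤ cofinite := hyperfilter_le_cofinite
  choose G hG using fun i => exists_lift_poly F (fun k => g k i) D fun k => hg k i
  let _ : Algebra (((k : ℕ) → F k) ⧸ uI F U) (((k : ℕ) → E k) ⧸ uI E U) :=
    (ultraMap F E U).toAlgebra
  have hac : IsAlgClosure (((N : ℕ) → F N) ⧸ uI F U)
      (algebraicClosure (((N : ℕ) → F N) ⧸ uI F U) (((N : ℕ) → E N) ⧸ uI E U)) := by
    refine IsAlgClosure.of_exists_root fun p hp hirr => ?_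
    obtain ⟨x, hx⟩ := ultra_root F E U hU hdvd p hp hirr.natDegree_pos
    have hx' : Polynomial.aeval x p = 0 := hx
    have hint : IsIntegral (((N : ℕ) → F N) ⧸ uI F U) x := ⟨p, hp, hx'⟩
    refine ⟨⟨x, mem_algebraicClosure_iff'.2 hint⟩, ?_⟩
    apply Subtype.ext
    have h1 := Polynomial.aeval_algHom_apply
      (algebraicClosure (((N : ℕ) → F N) ⧸ uI F U) (((N : ℕ) → E N) ⧸ uI E U)).val
      ⟨x, mem_algebraicClosure_iff'.2 hint⟩ p
    exact h1.symm.trans hx'
  have hac' : IsAlgClosed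
      (algebraicClosure (((N : ℕ) → F N) ⧸ uI F U) (((N : ℕ) → E N) ⧸ uI E U)) :=
    hac.isAlgClosed
  set K := (algebraicClosure (((N : ℕ) → F N) ⧸ uI F U) (((N : ℕ) → E N) ⧸ uI E U)) with hK
  let φ : ((k : ℕ) → F k) →+* K :=
    (algebraMap (((N : ℕ) → F N) ⧸ uI F U) K).comp (Ideal.Quotient.mk (uI F U))
  have hφ : (algebraMap K (((k : ℕ) → E k) ⧸ uI E U)).comp φ =
      (Ideal.Quotient.mk (uI E U)).comp (prodMap F E) := by
    have h1 : (algebraMap K (((k : ℕ) → E k) ⧸ uI E U)).comp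
        (algebraMap (((N : ℕ) → F N) ⧸ uI F U) K) = ultraMap F E U :=
      (IsScalarTower.algebraMap_eq _ _ _).symm
    rw [← ultraMap_comp, ← RingHom.comp_assoc, h1]
  obtain ⟨out, hout⟩ : ∃ out : (((k : ℕ) → E k) ⧸ uI E U) → (k : ℕ) → E k,
      ∀ a, Ideal.Quotient.mk (uI E U) (out a) = a :=
    Classical.axiomOfChoice (Ideal.Quotient.mk_surjective (I := uI E U))
  -- the girth over `K`
  have hgK : ((2 * m : ℕ) : ℕ∞) <
      (polyGraph (FINITE_SK F U φ S) (fun i => MvPolynomial.map φ (G i)) K).egirth := by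
    by_contra hle
    rw [not_lt] at hle
    obtain ⟨n, hn, hnm, hc⟩ := egirth_le_iff.1 hle
    let lift : ((Fin N → K) ⊕ (Fin N → K)) → ∀ k, ((Fin N → E k) ⊕ (Fin N → E k)) :=
      fun x k => Sum.map
        (fun p i => out (algebraMap K (((k : ℕ) → E k) ⧸ uI E U) (p i)) k)
        (fun p i => out (algebraMap K (((k : ℕ) → E k) ⧸ uI E U) (p i)) k) x
    have hrel : ∀ p l : Fin N → K,
        PRel (FINITE_SK F U φ S) (fun i => MvPolynomial.map φ (G i)) K p l →
        ∀ᶠ k in (U : Filter ℕ), PRel (S k) (g k) (E k)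
          (fun i => out (algebraMap K (((k : ℕ) → E k) ⧸ uI E U) (p i)) k)
          (fun i => out (algebraMap K (((k : ℕ) → E k) ⧸ uI E U) (l i)) k) := by
      intro p l h
      rw [FINITE_prel_map _ _ (((k : ℕ) → E k) ⧸ uI E U)] at h
      apply (FINITE_los_prel F E U φ S g G hφ hS hG _ _).1
      simp only [hout]
      exact h
    have hne : ∀ p q : Fin N → K, p ≠ q → ∀ᶠ k in (U : Filter ℕ),
        (fun i => out (algebraMap K (((k : ℕ) → E k) ⧸ uI E U) (p i)) k) ≠
        (fun i => out (algebraMap K (((k : ℕ) → E k) ⧸ uI E U) (q i)) k) := by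
      intro p q hpq
      obtain ⟨i, hi⟩ := Function.ne_iff.1 hpq
      rw [Ultrafilter.eventually_not]
      intro h
      apply hi
      apply (algebraMap K (((k : ℕ) → E k) ⧸ uI E U)).injective
      rw [← hout (algebraMap K (((k : ℕ) → E k) ⧸ uI E U) (p i)),
        ← hout (algebraMap K (((k : ℕ) → E k) ⧸ uI E U) (q i)), ← sub_eq_zero, ← map_sub,
        mk_eq_zero_iff]
      filter_upwards [h] with k hk
      rw [Pi.sub_apply, sub_eq_zero]
      exact congrFun hk i
    have h1 := FINITE_los_graph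
      (polyGraph (FINITE_SK F U φ S) (fun i => MvPolynomial.map φ (G i)) K)
      (fun k => polyGraph (S k) (g k) (E k)) U lift ?_ ?_ hc
    · obtain ⟨k, hk⟩ := h1.exists
      exact absurd (egirth_le_iff.2 ⟨n, hn, hnm, hk⟩) (not_le.2 (hgirth k))
    · rintro _ _ (⟨p, l, rfl, rfl, hpl⟩ | ⟨p, l, rfl, rfl, hpl⟩)
      · exact (hrel p l hpl).mono fun k hk => Or.inl ⟨_, _, rfl, rfl, hk⟩
      · exact (hrel p l hpl).mono fun k hk => Or.inr ⟨_, _, rfl, rfl, hk⟩
    · rintro (p | p) (q | q) hpq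
      · exact (hne p q fun h => hpq (by rw [h])).mono fun k hk h => hk (Sum.inl_injective h)
      · exact Eventually.of_forall fun k h => Sum.inl_ne_inr h
      · exact Eventually.of_forall fun k h => Sum.inr_ne_inl h
      · exact (hne p q fun h => hpq (by rw [h])).mono fun k hk h => hk (Sum.inr_injective h)
  have hmpos : 0 < m := by omega
  set d := ((m + 1) * N - 1) / m with hd
  have hdm : d * m ≤ (m + 1) * N - 1 := Nat.div_mul_le_self _ _
  obtain ⟨J, f, hf, hcov⟩ := FINITE_cover (FINITE_SK F U φ S)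
    (fun i => MvPolynomial.map φ (G i)) d (by
      intro L _ _ p l hpl
      have h1 := hT K m hm N D _ _ hN hgK L p l hpl
      rw [hd, Nat.le_div_iff_mul_le hmpos]
      rw [mul_comm]
      omega)
  choose f' hf'1 hf'2 using fun j T => FINITE_lift E U (f j T)
  let D' : ℕ := J.sup fun j => Finset.univ.sup fun T => (f j T).totalDegree
  obtain ⟨C', hC'⟩ := hC (Fin N ⊕ Fin N) d D'
  -- eventually, the polynomials do not vanish
  have ev1 : ∀ᶠ k in (U : Filter ℕ), ∀ j ∈ J, ∀ T : Finset (Fin N ⊕ Fin N),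
      MvPolynomial.map (Pi.evalRingHom (fun k => E k) k) (f' j T) ≠ 0 := by
    rw [eventually_all_finset]
    intro j _
    rw [eventually_all]
    intro T
    obtain ⟨e, he⟩ := ne_zero_iff.1 (hf j T).1
    have h1 : Ideal.Quotient.mk (uI E U) (coeff e (f' j T)) ≠ 0 := by
      rw [← coeff_map, hf'1, coeff_map]
      exact (map_ne_zero_iff _ (algebraMap K _).injective).2 he
    rw [Ne, mk_eq_zero_iff, ← Ultrafilter.eventually_not] at h1
    filter_upwards [h1] with k hk h2
    apply hk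
    have h3 := congrArg (coeff e) h2
    rw [coeff_map, coeff_zero] at h3
    exact h3
  -- eventually, the cover works
  have ev2 : ∀ᶠ k in (U : Filter ℕ), ∀ x : Fin N ⊕ Fin N → E k,
      PRel (S k) (g k) (E k) (x ∘ Sum.inl) (x ∘ Sum.inr) →
      ∃ j ∈ J, ∀ T : Finset (Fin N ⊕ Fin N), T.card = d + 1 →
        eval x (MvPolynomial.map (Pi.evalRingHom (fun k => E k) k) (f' j T)) = 0 := by
    by_contra hno
    rw [← Ultrafilter.eventually_not] at hno
    push Not at hno
    have hx : ∀ k, ∃ x : Fin N ⊕ Fin N → E k,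
        (∃ x : Fin N ⊕ Fin N → E k, PRel (S k) (g k) (E k) (x ∘ Sum.inl) (x ∘ Sum.inr) ∧
          ∀ j ∈ J, ∃ T : Finset (Fin N ⊕ Fin N), T.card = d + 1 ∧
            eval x (MvPolynomial.map (Pi.evalRingHom (fun k => E k) k) (f' j T)) ≠ 0) →
        (PRel (S k) (g k) (E k) (x ∘ Sum.inl) (x ∘ Sum.inr) ∧
          ∀ j ∈ J, ∃ T : Finset (Fin N ⊕ Fin N), T.card = d + 1 ∧
            eval x (MvPolynomial.map (Pi.evalRingHom (fun k => E k) k) (f' j T)) ≠ 0) := by
      intro k
      by_cases h : ∃ x : Fin N ⊕ Fin N → E k,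
          PRel (S k) (g k) (E k) (x ∘ Sum.inl) (x ∘ Sum.inr) ∧
          ∀ j ∈ J, ∃ T : Finset (Fin N ⊕ Fin N), T.card = d + 1 ∧
            eval x (MvPolynomial.map (Pi.evalRingHom (fun k => E k) k) (f' j T)) ≠ 0
      · obtain ⟨x, hx⟩ := h
        exact ⟨x, fun _ => hx⟩
      · exact ⟨0, fun h' => absurd h' h⟩
    choose x hx using hx
    have h1 := (FINITE_los_prel F E U φ S g G hφ hS hG (fun i k => x k (Sum.inl i))
      (fun i k => x k (Sum.inr i))).2 (hno.mono fun k hk => (hx k hk).1)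
    obtain ⟨j, hj, h2⟩ := hcov _ _ _ h1
    have h3 : ∀ T : Finset (Fin N ⊕ Fin N), ∀ᶠ k in (U : Filter ℕ), T.card = d + 1 →
        eval (x k) (MvPolynomial.map (Pi.evalRingHom (fun k => E k) k) (f' j T)) = 0 := by
      intro T
      by_cases hTc : T.card = d + 1
      · have h4 := h2 T hTc
        have h5 : Sum.elim (fun i => Ideal.Quotient.mk (uI E U) fun k => x k (Sum.inl i))
            (fun i => Ideal.Quotient.mk (uI E U) fun k => x k (Sum.inr i)) =
            fun s => Ideal.Quotient.mk (uI E U) ((fun s k => x k s) s) := by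
          funext s
          rcases s with s | s <;> rfl
        rw [h5, aeval_def, ← eval_map, ← hf'1] at h4
        have h6 := (FINITE_los' E U (f' j T) (fun s k => x k s)).1 h4
        exact h6.mono fun k hk _ => hk
      · exact Eventually.of_forall fun k h => absurd h hTc
    obtain ⟨k, hk1, hk2⟩ := (hno.and (eventually_all.2 h3)).exists
    obtain ⟨T, hT1, hT2⟩ := (hx k hk1).2 j hj
    exact hT2 (hk2 T hT1)
  have ev3 : ∀ᶠ k in (U : Filter ℕ), (J.card * C') ^ m ≤ k := by
    apply hU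
    rw [Nat.cofinite_eq_atTop]
    exact eventually_ge_atTop _
  obtain ⟨k, hk1, hk2, hk3⟩ := (ev1.and (ev2.and ev3)).exists
  -- counting
  let W : Ideal (MvPolynomial (Fin N ⊕ Fin N) K) → Set (Fin N ⊕ Fin N → E k) := fun j =>
    {x | ∀ T : Finset (Fin N ⊕ Fin N), T.card = d + 1 →
        eval x (MvPolynomial.map (Pi.evalRingHom (fun k => E k) k) (f' j T)) = 0}
  have hW : ∀ j ∈ J, (W j).ncard ≤ C' * Nat.card (E k) ^ d := by
    intro j hj
    apply hC' (E k) (W j)
    intro T hTc
    refine ⟨MvPolynomial.map (Pi.evalRingHom (fun k => E k) k) (f' j T), hk1 j hj T, ?_, ?_,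
      fun p hp => hp T hTc⟩
    · have h1 := (FINITE_support_mono (support_map_subset
        (Pi.evalRingHom (fun k => E k) k) (f' j T))).1
      have h2 := (FINITE_support_mono (hf'2 j T)).1
      have h3 : (f j T).totalDegree ≤ Finset.univ.sup fun T => (f j T).totalDegree :=
        Finset.le_sup (f := fun T => (f j T).totalDegree) (Finset.mem_univ T)
      have h4 : (Finset.univ.sup fun T => (f j T).totalDegree) ≤ D' :=
        Finset.le_sup (f := fun j => Finset.univ.sup fun T => (f j T).totalDegree) hj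
      omega
    · have h1 := (FINITE_support_mono (support_map_subset
        (Pi.evalRingHom (fun k => E k) k) (f' j T))).2
      have h2 := (FINITE_support_mono (hf'2 j T)).2
      exact_mod_cast h1.trans (h2.trans (hf j T).2)
  have hsub : {x : Fin N ⊕ Fin N → E k | PRel (S k) (g k) (E k) (x ∘ Sum.inl) (x ∘ Sum.inr)} ⊆
      ⋃ j ∈ J, W j := by
    intro x hx
    obtain ⟨j, hj, h1⟩ := hk2 x hx
    exact Set.mem_biUnion hj h1
  have h1 : {x : Fin N ⊕ Fin N → E k |
      PRel (S k) (g k) (E k) (x ∘ Sum.inl) (x ∘ Sum.inr)}.ncard ≤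
      J.card * C' * Nat.card (E k) ^ d := by
    refine (Set.ncard_le_ncard hsub (Set.toFinite _)).trans ?_
    refine (Finset.set_ncard_biUnion_le J W).trans ?_
    refine (Finset.sum_le_card_nsmul J _ _ hW).trans ?_
    rw [smul_eq_mul, mul_assoc]
  have h2 := (FINITE_edges (S k) (g k) (E k)).trans h1
  have h3 : (polyGraph (S k) (g k) (E k)).edgeSet.ncard ^ m ≤
      k * Nat.card (E k) ^ ((m + 1) * N - 1) := by
    calc (polyGraph (S k) (g k) (E k)).edgeSet.ncard ^ m
        ≤ (J.card * C' * Nat.card (E k) ^ d) ^ m := Nat.pow_le_pow_left h2 m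
      _ = (J.card * C') ^ m * Nat.card (E k) ^ (d * m) := by rw [mul_pow, ← pow_mul]
      _ ≤ k * Nat.card (E k) ^ ((m + 1) * N - 1) :=
        Nat.mul_le_mul hk3 (Nat.pow_le_pow_right Nat.card_pos hdm)
  exact absurd h3 (not_le.2 (hbad k))

end Pool.Agent.Helper92.GG
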