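import Pool.Agent.Helper94.GG.FINITE

/-! # From algebraically closed fields to finite fields: all extensions -/

set_option autoImplicit false

namespace Pool.Agent.Helper92.GG

open MvPolynomial SimpleGraph Filter
open Pool.Agent.Helper49.Girth (uI mk_eq_zero_iff ultraMap prodMap ultraMap_comp ultra_root
  exists_lift_poly egirth_le_iff uI_max)

universe u

/-- The final theorem, with the edges counted over an arbitrary finite extension `E₂`. -/
def ST_FINITE2 : Prop :=
  ∀ (m : ℕ), (m = 4 ∨ 6 ≤ m) → ∀ N D : ℕ, ∃ n₀ C : ℕ, 0 < n₀ ∧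
    ∀ (F : Type u) [Field F] [Finite F] (S : Fin D → Set (MvPolynomial (Fin N ⊕ Fin N) F))
      (g : Fin D → MvPolynomial (Fin N ⊕ Fin N) F),
      (∀ i, ∀ f ∈ S i, f.totalDegree ≤ D) → (∀ i, (g i).totalDegree ≤ D) →
      ∀ (E : Type u) [Field E] [Algebra F E] [Finite E], n₀ ∣ Module.finrank F E →
        ((2 * m : ℕ) : ℕ∞) < (polyGraph S g E).egirth →
        ∀ (E₂ : Type u) [Field E₂] [Algebra F E₂] [Finite E₂],
          (polyGraph S g E₂).edgeSet.ncard ^ m ≤ C * Nat.card E₂ ^ ((m + 1) * N - 1)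

section tower

variable {K₀ K : Type u} [Field K₀] [Field K] [Algebra K₀ K] {N D : ℕ}
  (S : Fin D → Set (MvPolynomial (Fin N ⊕ Fin N) K₀))
  (g : Fin D → MvPolynomial (Fin N ⊕ Fin N) K₀)

/-- `PRel` in a tower of fields -/
theorem FINITE2_prel_tower (L : Type u) [Field L] [Algebra K L] [Algebra K₀ L]
    [IsScalarTower K₀ K L] (p l : Fin N → L) :
    PRel (fun i => MvPolynomial.map (algebraMap K₀ K) '' S i)
      (fun i => MvPolynomial.map (algebraMap K₀ K) (g i)) L p l ↔ PRel S g L p l := by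
  unfold PRel
  simp only [aeval_map_algebraMap, Set.forall_mem_image]

/-- `PRel` and homomorphisms -/
theorem FINITE2_prel_hom (L L' : Type u) [Field L] [Algebra K₀ L] [Field L'] [Algebra K₀ L']
    (θ : L →ₐ[K₀] L') (p l : Fin N → L) :
    PRel S g L p l ↔ PRel S g L' (fun i => θ (p i)) (fun i => θ (l i)) := by
  have hx : Sum.elim (fun i => θ (p i)) (fun i => θ (l i)) =
      fun s => θ (Sum.elim p l s) := by
    funext s
    rcases s with s | s <;> rfl
  have h1 : ∀ f : MvPolynomial (Fin N ⊕ Fin N) K₀,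
      aeval (fun s => θ (Sum.elim p l s)) f = 0 ↔ aeval (Sum.elim p l) f = 0 := by
    intro f
    have : aeval (fun s => θ (Sum.elim p l s)) f = θ (aeval (Sum.elim p l) f) := by
      rw [comp_aeval_apply]
    rw [this]
    exact map_eq_zero_iff _ θ.injective
  unfold PRel
  rw [hx]
  simp only [h1, ne_eq]

/-- ranks do not drop when the base field is enlarged algebraically -/
theorem FINITE2_rk [Algebra.IsAlgebraic K₀ K] (L : Type u) [Field L] [Algebra K L]
    [Algebra K₀ L] [IsScalarTower K₀ K L] {s : Set L} (hs : s.Finite) :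
    rk K₀ s ≤ rk K s := by
  obtain ⟨I, hI⟩ := (AlgebraicIndependent.matroid K₀ L).exists_isBasis s
  have h1 : AlgebraicIndependent K₀ (fun a : I => (a : L)) := hI.indep
  have h2 : (AlgebraicIndependent.matroid K L).Indep I := h1.extendScalars K
  have h3 : (AlgebraicIndependent.matroid K₀ L).eRk s ≤
      (AlgebraicIndependent.matroid K L).eRk s := by
    rw [← hI.encard_eq_eRk, ← h2.eRk_eq_encard]
    exact Matroid.eRk_mono _ hI.subset
  unfold rk
  exact ENat.toNat_le_toNat h3 (eRk_ne_top hs)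

end tower

theorem st_FINITE2 (hT : ST_TALG.{u}) (hC : ST_COUNT.{u}) : ST_FINITE2.{u} := by
  classical
  intro m hm N D
  rcases Nat.eq_zero_or_pos N with hN | hN
  · subst hN
    refine ⟨1, 1, one_pos, fun F _ _ S g _ _ _ _ _ _ _ _ E _ _ _ => ?_⟩
    have h1 := FINITE_edges S g E
    have h2 : {x : Fin 0 ⊕ Fin 0 → E | PRel S g E (x ∘ Sum.inl) (x ∘ Sum.inr)}.ncard ≤ 1 :=
      Set.ncard_le_one_of_subsingleton _
    have h3 : (polyGraph S g E).edgeSet.ncard ≤ 1 := h1.trans h2
    calc (polyGraph S g E).edgeSet.ncard ^ m ≤ 1 ^ m := Nat.pow_le_pow_left h3 m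
      _ ≤ 1 * Nat.card E ^ ((m + 1) * 0 - 1) := by simp
  by_contra hcon
  push Not at hcon
  choose F fF finF S g hS hg E fE aE finE hdvd hgirth E₂ fE₂ aE₂ finE₂ hbad using
    fun k : ℕ => hcon k.factorial k (Nat.factorial_pos k)
  let U : Ultrafilter ℕ := hyperfilter ℕ
  have hU : (U : Filter ℕ) ≤ cofinite := hyperfilter_le_cofinite
  choose G hG using fun i => exists_lift_poly F (fun k => g k i) D fun k => hg k i
  let _ : Algebra (((k : ℕ) → F k) ⧸ uI F U) (((k : ℕ) → E k) ⧸ uI E U) :=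
    (ultraMap F E U).toAlgebra
  let _ : Algebra (((k : ℕ) → F k) ⧸ uI F U) (((k : ℕ) → E₂ k) ⧸ uI E₂ U) :=
    (ultraMap F E₂ U).toAlgebra
  have hac : IsAlgClosure (((N : ℕ) → F N) ⧸ uI F U)
      (algebraicClosure (((N : ℕ) → F N) ⧸ uI F U) (((N : ℕ) → E N) ⧸ uI E U)) := by
    refine IsAlgClosure.of_exists_root fun p hp hirr => ?_
    obtain ⟨x, hx⟩ := ultra_root F E U hU hdvd p hp hirr.natDegree_pos
    have hx' : Polynomial.aeval x p = 0 := hx
    have hint : IsIntegral (((N : ℕ) → F N) ⧸ uI F U) x := ⟨p, hp, hx'⟩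
    refine ⟨⟨x, mem_algebraicClosure_iff'.2 hint⟩, ?_⟩
    apply Subtype.ext
    have h1 := Polynomial.aeval_algHom_apply
      (algebraicClosure (((N : ℕ) → F N) ⧸ uI F U) (((N : ℕ) → E N) ⧸ uI E U)).val
      ⟨x, mem_algebraicClosure_iff'.2 hint⟩ p
    exact h1.symm.trans hx'
  have hac' : IsAlgClosed
      (algebraicClosure (((N : ℕ) → F N) ⧸ uI F U) (((N : ℕ) → E N) ⧸ uI E U)) :=
    hac.isAlgClosed
  have hac'' : Algebra.IsAlgebraic (((N : ℕ) → F N) ⧸ uI F U)
      (algebraicClosure (((N : ℕ) → F N) ⧸ uI F U) (((N : ℕ) → E N) ⧸ uI E U)) :=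
    hac.isAlgebraic
  set K := (algebraicClosure (((N : ℕ) → F N) ⧸ uI F U) (((N : ℕ) → E N) ⧸ uI E U)) with hK
  -- the equations over the ultraproduct of the `F k`
  let SF : Fin D → Set (MvPolynomial (Fin N ⊕ Fin N) (((k : ℕ) → F k) ⧸ uI F U)) :=
    FINITE_SK F U (Ideal.Quotient.mk (uI F U)) S
  let gF : Fin D → MvPolynomial (Fin N ⊕ Fin N) (((k : ℕ) → F k) ⧸ uI F U) :=
    fun i => MvPolynomial.map (Ideal.Quotient.mk (uI F U)) (G i)
  let SK : Fin D → Set (MvPolynomial (Fin N ⊕ Fin N) K) :=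
    fun i => MvPolynomial.map (algebraMap (((k : ℕ) → F k) ⧸ uI F U) K) '' SF i
  let gK : Fin D → MvPolynomial (Fin N ⊕ Fin N) K :=
    fun i => MvPolynomial.map (algebraMap (((k : ℕ) → F k) ⧸ uI F U) K) (gF i)
  have hφ : (algebraMap (((k : ℕ) → F k) ⧸ uI F U) (((k : ℕ) → E k) ⧸ uI E U)).comp
      (Ideal.Quotient.mk (uI F U)) = (Ideal.Quotient.mk (uI E U)).comp (prodMap F E) :=
    ultraMap_comp F E U
  have hφ₂ : (algebraMap (((k : ℕ) → F k) ⧸ uI F U) (((k : ℕ) → E₂ k) ⧸ uI E₂ U)).comp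
      (Ideal.Quotient.mk (uI F U)) = (Ideal.Quotient.mk (uI E₂ U)).comp (prodMap F E₂) :=
    ultraMap_comp F E₂ U
  obtain ⟨out, hout⟩ : ∃ out : (((k : ℕ) → E k) ⧸ uI E U) → (k : ℕ) → E k,
      ∀ a, Ideal.Quotient.mk (uI E U) (out a) = a :=
    Classical.axiomOfChoice (Ideal.Quotient.mk_surjective (I := uI E U))
  -- the girth over `K`
  have hgK : ((2 * m : ℕ) : ℕ∞) < (polyGraph SK gK K).egirth := by
    by_contra hle
    rw [not_lt] at hle
    obtain ⟨n, hn, hnm, hc⟩ := egirth_le_iff.1 hle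
    let lift : ((Fin N → K) ⊕ (Fin N → K)) → ∀ k, ((Fin N → E k) ⊕ (Fin N → E k)) :=
      fun x k => Sum.map
        (fun p i => out (algebraMap K (((k : ℕ) → E k) ⧸ uI E U) (p i)) k)
        (fun p i => out (algebraMap K (((k : ℕ) → E k) ⧸ uI E U) (p i)) k) x
    have hrel : ∀ p l : Fin N → K, PRel SK gK K p l →
        ∀ᶠ k in (U : Filter ℕ), PRel (S k) (g k) (E k)
          (fun i => out (algebraMap K (((k : ℕ) → E k) ⧸ uI E U) (p i)) k)
          (fun i => out (algebraMap K (((k : ℕ) → E k) ⧸ uI E U) (l i)) k) := by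
      intro p l h
      have h1 : PRel SF gF K p l := (FINITE2_prel_tower SF gF K p l).1 h
      have h2 := (FINITE2_prel_hom SF gF K (((k : ℕ) → E k) ⧸ uI E U)
        (IsScalarTower.toAlgHom (((k : ℕ) → F k) ⧸ uI F U) K (((k : ℕ) → E k) ⧸ uI E U))
        p l).1 h1
      apply (FINITE_los_prel F E U (Ideal.Quotient.mk (uI F U)) S g G hφ hS hG _ _).1
      simp only [hout]
      exact h2
    have hne : ∀ p q : Fin N → K, p ≠ q → ∀ᶠ k in (U : Filter ℕ),
        (fun i => out (algebraMap K (((k : ℕ) → E k) ⧸ uI E U) (p i)) k) ≠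
        (fun i => out (algebraMap K (((k : ℕ) → E k) ⧸ uI E U) (q i)) k) := by
      intro p q hpq
      obtain ⟨i, hi⟩ := Function.ne_iff.1 hpq
      rw [Ultrafilter.eventually_not]
      intro h
      apply hi
      apply (algebraMap K (((k : ℕ) → E k) ⧸ uI E U)).injective
      rw [← hout (algebraMap K (((k : ℕ) → E k) ⧸ uI E U) (p i)),
        ← hout (algebraMap K (((k : ℕ) → E k) ⧸ uI E U) (q i)), ← sub_eq_zero, ← map_sub,
        mk_eq_zero_iff]
      filter_upwards [h] with k hk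
      rw [Pi.sub_apply, sub_eq_zero]
      exact congrFun hk i
    have h1 := FINITE_los_graph (polyGraph SK gK K)
      (fun k => polyGraph (S k) (g k) (E k)) U lift ?_ ?_ hc
    · obtain ⟨k, hk⟩ := h1.exists
      exact absurd (egirth_le_iff.2 ⟨n, hn, hnm, hk⟩) (not_le.2 (hgirth k))
    · rintro _ _ (⟨p, l, rfl, rfl, hpl⟩ | ⟨p, l, rfl, rfl, hpl⟩)
      · exact (hrel p l hpl).mono fun k hk => Or.inl ⟨_, _, rfl, rfl, hk⟩
      · exact (hrel p l hpl).mono fun k hk => Or.inr ⟨_, _, rfl, rfl, hk⟩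
    · rintro (p | p) (q | q) hpq
      · exact (hne p q fun h => hpq (by rw [h])).mono fun k hk h => hk (Sum.inl_injective h)
      · exact Eventually.of_forall fun k h => Sum.inl_ne_inr h
      · exact Eventually.of_forall fun k h => Sum.inr_ne_inl h
      · exact (hne p q fun h => hpq (by rw [h])).mono fun k hk h => hk (Sum.inr_injective h)
  have hmpos : 0 < m := by omega
  set d := ((m + 1) * N - 1) / m with hd
  have hdm : d * m ≤ (m + 1) * N - 1 := Nat.div_mul_le_self _ _
  obtain ⟨J, f, hf, hcov⟩ := FINITE_cover SF gF d (by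
      intro L _ _ p l hpl
      -- embed `K` and `L` into a common field
      let θ : K →ₐ[(((N : ℕ) → F N) ⧸ uI F U)] AlgebraicClosure L := IsAlgClosed.lift
      let _ : Algebra K (AlgebraicClosure L) := θ.toRingHom.toAlgebra
      have htower : IsScalarTower (((N : ℕ) → F N) ⧸ uI F U) K (AlgebraicClosure L) :=
        IsScalarTower.of_algebraMap_eq fun a => (θ.commutes a).symm
      have h0 := (FINITE2_prel_hom SF gF L (AlgebraicClosure L)
        (IsScalarTower.toAlgHom (((k : ℕ) → F k) ⧸ uI F U) L (AlgebraicClosure L)) p l).1 hpl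
      have h1 := hT K m hm N D SK gK hN hgK (AlgebraicClosure L) _ _
        ((FINITE2_prel_tower SF gF (AlgebraicClosure L) _ _).2 h0)
      have h2 := rk_image_of_injective
        (IsScalarTower.toAlgHom (((k : ℕ) → F k) ⧸ uI F U) L (AlgebraicClosure L))
        (Set.range p ∪ Set.range l)
      rw [Set.image_union, ← Set.range_comp, ← Set.range_comp] at h2
      have h3 := FINITE2_rk (K₀ := (((k : ℕ) → F k) ⧸ uI F U)) (K := K) (AlgebraicClosure L)
        ((Set.finite_range (⇑(IsScalarTower.toAlgHom (((k : ℕ) → F k) ⧸ uI F U) L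
          (AlgebraicClosure L)) ∘ p)).union (Set.finite_range
          (⇑(IsScalarTower.toAlgHom (((k : ℕ) → F k) ⧸ uI F U) L (AlgebraicClosure L)) ∘ l)))
      rw [h2] at h3
      have h4 : m * rk (((k : ℕ) → F k) ⧸ uI F U) (Set.range p ∪ Set.range l) + 1 ≤
          (m + 1) * N := le_trans (Nat.add_le_add_right (Nat.mul_le_mul_left m h3) 1) h1
      rw [hd, Nat.le_div_iff_mul_le hmpos]
      rw [mul_comm]
      omega)
  choose f' hf'1 hf'2 using fun j T => FINITE_lift F U (f j T)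
  let D' : ℕ := J.sup fun j => Finset.univ.sup fun T => (f j T).totalDegree
  obtain ⟨C', hC'⟩ := hC (Fin N ⊕ Fin N) d D'
  have hf'3 : ∀ j T, MvPolynomial.map (Ideal.Quotient.mk (uI F U)) (f' j T) = f j T := by
    intro j T
    rw [hf'1, Algebra.algebraMap_self, MvPolynomial.map_id]
  -- eventually, the polynomials do not vanish
  have ev1 : ∀ᶠ k in (U : Filter ℕ), ∀ j ∈ J, ∀ T : Finset (Fin N ⊕ Fin N),
      MvPolynomial.map (Pi.evalRingHom (fun k => F k) k) (f' j T) ≠ 0 := by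
    rw [eventually_all_finset]
    intro j _
    rw [eventually_all]
    intro T
    obtain ⟨e, he⟩ := ne_zero_iff.1 (hf j T).1
    have h1 : Ideal.Quotient.mk (uI F U) (coeff e (f' j T)) ≠ 0 := by
      rw [← coeff_map, hf'3]
      exact he
    rw [Ne, mk_eq_zero_iff, ← Ultrafilter.eventually_not] at h1
    filter_upwards [h1] with k hk h2
    apply hk
    have h3 := congrArg (coeff e) h2
    rw [coeff_map, coeff_zero] at h3
    exact h3
  -- eventually, the cover works
  have ev2 : ∀ᶠ k in (U : Filter ℕ), ∀ x : Fin N ⊕ Fin N → E₂ k,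
      PRel (S k) (g k) (E₂ k) (x ∘ Sum.inl) (x ∘ Sum.inr) →
      ∃ j ∈ J, ∀ T : Finset (Fin N ⊕ Fin N), T.card = d + 1 →
        aeval x (MvPolynomial.map (Pi.evalRingHom (fun k => F k) k) (f' j T)) = 0 := by
    by_contra hno
    rw [← Ultrafilter.eventually_not] at hno
    push Not at hno
    have hx : ∀ k, ∃ x : Fin N ⊕ Fin N → E₂ k,
        (∃ x : Fin N ⊕ Fin N → E₂ k, PRel (S k) (g k) (E₂ k) (x ∘ Sum.inl) (x ∘ Sum.inr) ∧
          ∀ j ∈ J, ∃ T : Finset (Fin N ⊕ Fin N), T.card = d + 1 ∧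
            aeval x (MvPolynomial.map (Pi.evalRingHom (fun k => F k) k) (f' j T)) ≠ 0) →
        (PRel (S k) (g k) (E₂ k) (x ∘ Sum.inl) (x ∘ Sum.inr) ∧
          ∀ j ∈ J, ∃ T : Finset (Fin N ⊕ Fin N), T.card = d + 1 ∧
            aeval x (MvPolynomial.map (Pi.evalRingHom (fun k => F k) k) (f' j T)) ≠ 0) := by
      intro k
      by_cases h : ∃ x : Fin N ⊕ Fin N → E₂ k,
          PRel (S k) (g k) (E₂ k) (x ∘ Sum.inl) (x ∘ Sum.inr) ∧
          ∀ j ∈ J, ∃ T : Finset (Fin N ⊕ Fin N), T.card = d + 1 ∧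
            aeval x (MvPolynomial.map (Pi.evalRingHom (fun k => F k) k) (f' j T)) ≠ 0
      · obtain ⟨x, hx⟩ := h
        exact ⟨x, fun _ => hx⟩
      · exact ⟨0, fun h' => absurd h' h⟩
    choose x hx using hx
    have h1 := (FINITE_los_prel F E₂ U (Ideal.Quotient.mk (uI F U)) S g G hφ₂ hS hG
      (fun i k => x k (Sum.inl i)) (fun i k => x k (Sum.inr i))).2
        (hno.mono fun k hk => (hx k hk).1)
    obtain ⟨j, hj, h2⟩ := hcov _ _ _ h1
    have h3 : ∀ T : Finset (Fin N ⊕ Fin N), ∀ᶠ k in (U : Filter ℕ), T.card = d + 1 →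
        aeval (x k) (MvPolynomial.map (Pi.evalRingHom (fun k => F k) k) (f' j T)) = 0 := by
      intro T
      by_cases hTc : T.card = d + 1
      · have h4 := h2 T hTc
        have h5 : Sum.elim (fun i => Ideal.Quotient.mk (uI E₂ U) fun k => x k (Sum.inl i))
            (fun i => Ideal.Quotient.mk (uI E₂ U) fun k => x k (Sum.inr i)) =
            fun s => Ideal.Quotient.mk (uI E₂ U) ((fun s k => x k s) s) := by
          funext s
          rcases s with s | s <;> rfl
        rw [h5, ← hf'3] at h4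
        have h6 := (FINITE_los F E₂ U (Ideal.Quotient.mk (uI F U)) hφ₂ (f' j T)
          (fun s k => x k s)).1 h4
        exact h6.mono fun k hk _ => hk
      · exact Eventually.of_forall fun k h => absurd h hTc
    obtain ⟨k, hk1, hk2⟩ := (hno.and (eventually_all.2 h3)).exists
    obtain ⟨T, hT1, hT2⟩ := (hx k hk1).2 j hj
    exact hT2 (hk2 T hT1)
  have ev3 : ∀ᶠ k in (U : Filter ℕ), (J.card * C') ^ m ≤ k := by
    apply hU
    rw [Nat.cofinite_eq_atTop]
    exact eventually_ge_atTop _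
  obtain ⟨k, hk1, hk2, hk3⟩ := (ev1.and (ev2.and ev3)).exists
  -- counting
  let W : Ideal (MvPolynomial (Fin N ⊕ Fin N) (((k : ℕ) → F k) ⧸ uI F U)) →
      Set (Fin N ⊕ Fin N → E₂ k) := fun j =>
    {x | ∀ T : Finset (Fin N ⊕ Fin N), T.card = d + 1 →
        aeval x (MvPolynomial.map (Pi.evalRingHom (fun k => F k) k) (f' j T)) = 0}
  have hW : ∀ j ∈ J, (W j).ncard ≤ C' * Nat.card (E₂ k) ^ d := by
    intro j hj
    apply hC' (E₂ k) (W j)
    intro T hTc
    have hsup : (MvPolynomial.map (algebraMap (F k) (E₂ k))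
        (MvPolynomial.map (Pi.evalRingHom (fun k => F k) k) (f' j T))).support ⊆
        (f j T).support :=
      (support_map_subset _ _).trans ((support_map_subset _ _).trans (hf'2 j T))
    refine ⟨MvPolynomial.map (algebraMap (F k) (E₂ k))
      (MvPolynomial.map (Pi.evalRingHom (fun k => F k) k) (f' j T)), ?_, ?_, ?_,
      fun p hp => ?_⟩
    · intro h0
      apply hk1 j hj T
      apply map_injective _ (algebraMap (F k) (E₂ k)).injective
      rw [h0, map_zero]
    · have h1 := (FINITE_support_mono hsup).1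
      have h3 : (f j T).totalDegree ≤ Finset.univ.sup fun T => (f j T).totalDegree :=
        Finset.le_sup (f := fun T => (f j T).totalDegree) (Finset.mem_univ T)
      have h4 : (Finset.univ.sup fun T => (f j T).totalDegree) ≤ D' :=
        Finset.le_sup (f := fun j => Finset.univ.sup fun T => (f j T).totalDegree) hj
      omega
    · exact_mod_cast (FINITE_support_mono hsup).2.trans (hf j T).2
    · have h1 := hp T hTc
      rw [aeval_def, ← eval_map] at h1
      exact h1
  have hsub : {x : Fin N ⊕ Fin N → E₂ k |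
      PRel (S k) (g k) (E₂ k) (x ∘ Sum.inl) (x ∘ Sum.inr)} ⊆ ⋃ j ∈ J, W j := by
    intro x hx
    obtain ⟨j, hj, h1⟩ := hk2 x hx
    exact Set.mem_biUnion hj h1
  have h1 : {x : Fin N ⊕ Fin N → E₂ k |
      PRel (S k) (g k) (E₂ k) (x ∘ Sum.inl) (x ∘ Sum.inr)}.ncard ≤
      J.card * C' * Nat.card (E₂ k) ^ d := by
    refine (Set.ncard_le_ncard hsub (Set.toFinite _)).trans ?_
    refine (Finset.set_ncard_biUnion_le J W).trans ?_
    refine (Finset.sum_le_card_nsmul J _ _ hW).trans ?_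
    rw [smul_eq_mul, mul_assoc]
  have h2 := (FINITE_edges (S k) (g k) (E₂ k)).trans h1
  have h3 : (polyGraph (S k) (g k) (E₂ k)).edgeSet.ncard ^ m ≤
      k * Nat.card (E₂ k) ^ ((m + 1) * N - 1) := by
    calc (polyGraph (S k) (g k) (E₂ k)).edgeSet.ncard ^ m
        ≤ (J.card * C' * Nat.card (E₂ k) ^ d) ^ m := Nat.pow_le_pow_left h2 m
      _ = (J.card * C') ^ m * Nat.card (E₂ k) ^ (d * m) := by rw [mul_pow, ← pow_mul]
      _ ≤ k * Nat.card (E₂ k) ^ ((m + 1) * N - 1) :=
        Nat.mul_le_mul hk3 (Nat.pow_le_pow_right Nat.card_pos hdm)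
  exact absurd h3 (not_le.2 (hbad k))

end Pool.Agent.Helper92.GG
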